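import Mathlib

/-!
Polynomial maps of characteristic-polynomial type.
-/

set_option autoImplicit false

namespace Pool.Agent.Lib.MP_07d99b_al

open MvPolynomial

/-- The polynomial map `ℝⁿ → ℝⁿ` with components `p 0, …, p (n-1)`. -/
noncomputable def polyMap {n : ℕ} (p : Fin n → MvPolynomial (Fin n) ℝ) :
    (Fin n → ℝ) → (Fin n → ℝ) := fun x i => eval x (p i)

/-- Conditions (a)-(e); the component with index `i : Fin n` is the `(i+1)`-st one. -/
structure CharPolyType {n : ℕ} (p : Fin n → MvPolynomial (Fin n) ℝ) : Prop where
  /-- (a) all components vanish at the origin -/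
  zero : ∀ i, eval 0 (p i) = 0
  /-- (b) the `i`-th component has degree at most `i` (counting from one) -/
  degree : ∀ i : Fin n, (p i).totalDegree ≤ (i : ℕ) + 1
  /-- (c) the fibre over the origin is infinite -/
  fibre : (polyMap p ⁻¹' {0}).Infinite
  /-- (d) any `k` of the components, `1 ≤ k < n`, together involve at least `k+1` variables -/
  vars : ∀ s : Finset (Fin n), s.Nonempty → s.card < n →
    s.card + 1 ≤ (s.biUnion fun i => (p i).vars).card
  /-- (e) every component is a signed sum of distinct monomials -/
  coeffs : ∀ i m, coeff m (p i) = 0 ∨ coeff m (p i) = 1 ∨ coeff m (p i) = -1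

/-- Every monomial that occurs in a component is squarefree. -/
def SqfreeMonomials {n : ℕ} (p : Fin n → MvPolynomial (Fin n) ℝ) : Prop :=
  ∀ i, ∀ m ∈ (p i).support, ∀ j, m j ≤ 1

end Pool.Agent.Lib.MP_07d99b_al
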