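import Pool.Agent.Lib.MP_07d99b_al.Defs

set_option autoImplicit false

namespace Pool.Agent.Lib.MP_07d99b_al

open MvPolynomial

theorem coeff_sum_X {n : ℕ} (S : Finset (Fin n)) (m : Fin n →₀ ℕ) :
    coeff m (∑ j ∈ S, (X j : MvPolynomial (Fin n) ℝ)) =
      if ∃ j ∈ S, Finsupp.single j 1 = m then 1 else 0 := by
  classical
  rw [coeff_sum]
  simp only [coeff_X]
  by_cases h : ∃ j ∈ S, Finsupp.single j 1 = m
  · rw [if_pos h]
    obtain ⟨j, hj, rfl⟩ := h
    rw [Finset.sum_eq_single j]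
    · simp
    · intro b _ hb
      rw [if_neg]
      intro h
      exact hb ((Finsupp.single_left_inj one_ne_zero).mp h)
    · intro h
      exact absurd hj h
  · rw [if_neg h]
    apply Finset.sum_eq_zero
    intro j hj
    rw [if_neg]
    intro h'
    exact h ⟨j, hj, h'⟩

/-- the last component of the first example -/
noncomputable def last3 (m : ℕ) : MvPolynomial (Fin (m + 3)) ℝ :=
  X 0 ^ 3 - X 0 * X 2 ^ 2 + ∑ j ∈ Finset.univ \ {0, 2}, X j

/-- the first example -/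
noncomputable def ex3 (m : ℕ) : Fin (m + 3) → MvPolynomial (Fin (m + 3)) ℝ := fun i =>
  if i = 0 then X 0 + X 1 else if i = 1 then X 0 * X 2 else if i = 2 then last3 m else X 0 + X i

theorem h01 (m : ℕ) : (0 : Fin (m + 3)) ≠ 1 := by
  intro h; simpa using congrArg Fin.val h

theorem val2 (m : ℕ) : ((2 : Fin (m + 3)) : ℕ) = 2 := by
  have h : 2 % (m + 3) = 2 := Nat.mod_eq_of_lt (by omega)
  exact h

theorem h02 (m : ℕ) : (0 : Fin (m + 3)) ≠ 2 := by
  intro h
  have := congrArg Fin.val h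
  rw [val2] at this
  simp at this

theorem h12 (m : ℕ) : (1 : Fin (m + 3)) ≠ 2 := by
  intro h
  have := congrArg Fin.val h
  rw [val2] at this
  simp at this

theorem coeff_last3 (m : ℕ) (d : Fin (m + 3) →₀ ℕ) : coeff d (last3 m) =
    (if Finsupp.single 0 3 = d then 1 else 0) -
    (if Finsupp.single 0 1 + Finsupp.single 2 2 = d then 1 else 0) +
    (if ∃ j ∈ (Finset.univ \ {0, 2} : Finset (Fin (m + 3))), Finsupp.single j 1 = d
      then 1 else 0) := by
  unfold last3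
  rw [coeff_add, coeff_sub, coeff_sum_X, coeff_X_pow]
  congr 2
  have : (X 0 * X 2 ^ 2 : MvPolynomial (Fin (m + 3)) ℝ) =
      monomial (Finsupp.single 0 1 + Finsupp.single 2 2) 1 := by
    rw [X, X_pow_eq_monomial, monomial_mul, one_mul]
  rw [this, coeff_monomial]

theorem deg_ne {n : ℕ} {d d' : Fin n →₀ ℕ} (h : (d.sum fun _ e => e) ≠ d'.sum fun _ e => e) :
    d ≠ d' := fun h' => h (by rw [h'])

theorem exps_ne (m : ℕ) : (Finsupp.single 0 3 : Fin (m + 3) →₀ ℕ) ≠
    Finsupp.single 0 1 + Finsupp.single 2 2 := by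
  intro h
  have := DFunLike.congr_fun h 2
  simp [h02 m] at this

theorem exps_ne' (m : ℕ) (j : Fin (m + 3)) : (Finsupp.single j 1 : Fin (m + 3) →₀ ℕ) ≠
    Finsupp.single 0 3 := by
  intro h
  have := congrArg (fun d => d.sum fun _ e => e) h
  simp at this

theorem exps_ne'' (m : ℕ) (j : Fin (m + 3)) : (Finsupp.single j 1 : Fin (m + 3) →₀ ℕ) ≠
    Finsupp.single 0 1 + Finsupp.single 2 2 := by
  intro h
  have := congrArg (fun d => d.sum fun _ e => e) h
  rw [Finsupp.sum_add_index' (fun _ => rfl) (fun _ _ _ => rfl)] at this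
  simp at this

theorem coeffs_last3 (m : ℕ) (d : Fin (m + 3) →₀ ℕ) :
    coeff d (last3 m) = 0 ∨ coeff d (last3 m) = 1 ∨ coeff d (last3 m) = -1 := by
  rw [coeff_last3]
  by_cases h1 : Finsupp.single 0 3 = d
  · subst h1
    have h2 := (exps_ne m).symm
    have h3 : ¬ ∃ j ∈ (Finset.univ \ {0, 2} : Finset (Fin (m + 3))),
        (Finsupp.single j 1 : Fin (m + 3) →₀ ℕ) = Finsupp.single 0 3 := by
      rintro ⟨j, _, h⟩
      exact exps_ne' m j h
    rw [if_pos rfl, if_neg h2, if_neg h3]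
    norm_num
  · by_cases h2 : Finsupp.single 0 1 + Finsupp.single 2 2 = d
    · subst h2
      have h3 : ¬ ∃ j ∈ (Finset.univ \ {0, 2} : Finset (Fin (m + 3))),
          (Finsupp.single j 1 : Fin (m + 3) →₀ ℕ) = Finsupp.single 0 1 + Finsupp.single 2 2 := by
        rintro ⟨j, _, h⟩
        exact exps_ne'' m j h
      rw [if_neg h1, if_pos rfl, if_neg h3]
      norm_num
    · rw [if_neg h1, if_neg h2]
      by_cases h3 : ∃ j ∈ (Finset.univ \ {0, 2} : Finset (Fin (m + 3))),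
          (Finsupp.single j 1 : Fin (m + 3) →₀ ℕ) = d
      · rw [if_pos h3]; norm_num
      · rw [if_neg h3]; norm_num

theorem vars_last3 (m : ℕ) : (last3 m).vars = Finset.univ := by
  rw [Finset.eq_univ_iff_forall]
  intro j
  rw [mem_vars_iff_mem_support]
  by_cases h0 : j = 0
  · subst h0
    refine ⟨Finsupp.single 0 3, ?_, by simp⟩
    rw [mem_support_iff, coeff_last3]
    have h2 := (exps_ne m).symm
    have h3 : ¬ ∃ j ∈ (Finset.univ \ {0, 2} : Finset (Fin (m + 3))),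
        (Finsupp.single j 1 : Fin (m + 3) →₀ ℕ) = Finsupp.single 0 3 := by
      rintro ⟨j, _, h⟩
      exact exps_ne' m j h
    rw [if_pos rfl, if_neg h2, if_neg h3]
    norm_num
  · by_cases h2 : j = 2
    · subst h2
      refine ⟨Finsupp.single 0 1 + Finsupp.single 2 2, ?_, ?_⟩
      · rw [mem_support_iff, coeff_last3]
        have h3 : ¬ ∃ j ∈ (Finset.univ \ {0, 2} : Finset (Fin (m + 3))),
            (Finsupp.single j 1 : Fin (m + 3) →₀ ℕ) =
              Finsupp.single 0 1 + Finsupp.single 2 2 := by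
          rintro ⟨j, _, h⟩
          exact exps_ne'' m j h
        rw [if_neg (exps_ne m), if_pos rfl, if_neg h3]
        norm_num
      · rw [Finsupp.mem_support_iff]
        simp [h02 m]
    · refine ⟨Finsupp.single j 1, ?_, by simp⟩
      rw [mem_support_iff, coeff_last3]
      have h3 : ∃ j' ∈ (Finset.univ \ {0, 2} : Finset (Fin (m + 3))),
          (Finsupp.single j' 1 : Fin (m + 3) →₀ ℕ) = Finsupp.single j 1 := by
        refine ⟨j, ?_, rfl⟩
        simp [h0, h2]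
      rw [if_neg (exps_ne' m j).symm, if_neg (exps_ne'' m j).symm, if_pos h3]
      norm_num

theorem eval_last3 (m : ℕ) (x : Fin (m + 3) → ℝ) : eval x (last3 m) =
    x 0 ^ 3 - x 0 * x 2 ^ 2 + ∑ j ∈ Finset.univ \ {0, 2}, x j := by
  unfold last3
  simp

theorem ex3_0 (m : ℕ) : ex3 m 0 = X 0 + X 1 := by simp [ex3]

theorem ex3_1 (m : ℕ) : ex3 m 1 = X 0 * X 2 := by simp [ex3, (h01 m).symm]

theorem ex3_2 (m : ℕ) : ex3 m 2 = last3 m := by simp [ex3, (h02 m).symm, (h12 m).symm]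

theorem ex3_ge (m : ℕ) (i : Fin (m + 3)) (h0 : i ≠ 0) (h1 : i ≠ 1) (h2 : i ≠ 2) :
    ex3 m i = X 0 + X i := by simp [ex3, h0, h1, h2]

theorem coeffs_add_X {n : ℕ} (i j : Fin n) (hij : i ≠ j) (d : Fin n →₀ ℕ) :
    coeff d (X i + X j : MvPolynomial (Fin n) ℝ) = 0 ∨
    coeff d (X i + X j : MvPolynomial (Fin n) ℝ) = 1 ∨
    coeff d (X i + X j : MvPolynomial (Fin n) ℝ) = -1 := by
  rw [coeff_add, coeff_X, coeff_X]
  by_cases h1 : Finsupp.single i 1 = d
  · subst h1
    have : ¬ (Finsupp.single j 1 = Finsupp.single i 1) := by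
      intro h
      exact hij ((Finsupp.single_left_inj one_ne_zero).mp h).symm
    rw [if_pos rfl, if_neg this]
    norm_num
  · rw [if_neg h1]
    by_cases h2 : Finsupp.single j 1 = d
    · rw [if_pos h2]; norm_num
    · rw [if_neg h2]; norm_num

theorem coeffs_mul_X {n : ℕ} (i j : Fin n) (d : Fin n →₀ ℕ) :
    coeff d (X i * X j : MvPolynomial (Fin n) ℝ) = 0 ∨
    coeff d (X i * X j : MvPolynomial (Fin n) ℝ) = 1 ∨
    coeff d (X i * X j : MvPolynomial (Fin n) ℝ) = -1 := by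
  have : (X i * X j : MvPolynomial (Fin n) ℝ) =
      monomial (Finsupp.single i 1 + Finsupp.single j 1) 1 := by
    rw [X, X, monomial_mul, one_mul]
  rw [this, coeff_monomial]
  split_ifs <;> norm_num

theorem vars_add_X {n : ℕ} (i j : Fin n) (hij : i ≠ j) :
    i ∈ (X i + X j : MvPolynomial (Fin n) ℝ).vars ∧
    j ∈ (X i + X j : MvPolynomial (Fin n) ℝ).vars := by
  have hne : ¬ (Finsupp.single j 1 = (Finsupp.single i 1 : Fin n →₀ ℕ)) := by
    intro h
    exact hij ((Finsupp.single_left_inj one_ne_zero).mp h).symm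
  have hne' : ¬ (Finsupp.single i 1 = (Finsupp.single j 1 : Fin n →₀ ℕ)) := fun h => hne h.symm
  rw [mem_vars_iff_mem_support, mem_vars_iff_mem_support]
  refine ⟨⟨Finsupp.single i 1, ?_, by simp⟩, ⟨Finsupp.single j 1, ?_, by simp⟩⟩
  · rw [mem_support_iff, coeff_add, coeff_X, coeff_X, if_pos rfl, if_neg hne]
    norm_num
  · rw [mem_support_iff, coeff_add, coeff_X, coeff_X, if_neg hne', if_pos rfl]
    norm_num

theorem vars_mul_X {n : ℕ} (i j : Fin n) :
    i ∈ (X i * X j : MvPolynomial (Fin n) ℝ).vars ∧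
    j ∈ (X i * X j : MvPolynomial (Fin n) ℝ).vars := by
  have : (X i * X j : MvPolynomial (Fin n) ℝ) =
      monomial (Finsupp.single i 1 + Finsupp.single j 1) 1 := by
    rw [X, X, monomial_mul, one_mul]
  rw [this, mem_vars_iff_mem_support, mem_vars_iff_mem_support]
  refine ⟨⟨_, by rw [mem_support_iff, coeff_monomial, if_pos rfl]; norm_num, ?_⟩,
    ⟨_, by rw [mem_support_iff, coeff_monomial, if_pos rfl]; norm_num, ?_⟩⟩
  · simp [Finsupp.mem_support_iff]
  · simp [Finsupp.mem_support_iff]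

/-- real roots: for every `T, c` and `k` there is `x` with `x ≠ 0 ∨ c = 0` and
`x ^ 4 - k x ^ 2 + T x - c ^ 2 = 0` resp. `x ^ 3 - k x + T = 0`. -/
theorem root_cubic (k T : ℝ) : ∃ x : ℝ, x ^ 3 - k * x + T = 0 := by
  set B : ℝ := 1 + |k| + |T| with hB
  have hk := abs_nonneg k
  have hT := abs_nonneg T
  have hk1 := le_abs_self k
  have hk2 := neg_abs_le k
  have hT1 := le_abs_self T
  have hT2 := neg_abs_le T
  have hB1 : 1 ≤ B := by linarith
  have hcont : ContinuousOn (fun x : ℝ => x ^ 3 - k * x + T) (Set.Icc (-B) B) := by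
    fun_prop
  have h1 : (fun x : ℝ => x ^ 3 - k * x + T) (-B) ≤ 0 := by
    simp only
    nlinarith [mul_nonneg (by linarith : (0:ℝ) ≤ B) hk, mul_nonneg (by linarith : (0:ℝ) ≤ B) hT,
      mul_self_nonneg B, mul_nonneg (mul_nonneg (by linarith : (0:ℝ) ≤ B) (by linarith : (0:ℝ) ≤ B))
      hk]
  have h2 : 0 ≤ (fun x : ℝ => x ^ 3 - k * x + T) B := by
    simp only
    nlinarith [mul_nonneg (by linarith : (0:ℝ) ≤ B) hk, mul_nonneg (by linarith : (0:ℝ) ≤ B) hT,
      mul_self_nonneg B, mul_nonneg (mul_nonneg (by linarith : (0:ℝ) ≤ B) (by linarith : (0:ℝ) ≤ B))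
      hk]
  obtain ⟨x, _, hx⟩ := intermediate_value_Icc (by linarith : -B ≤ B) hcont
    (show (0:ℝ) ∈ Set.Icc _ _ from ⟨h1, h2⟩)
  exact ⟨x, hx⟩

theorem root_quartic (k T c : ℝ) (hc : c ≠ 0) :
    ∃ x : ℝ, 0 < x ∧ x ^ 4 - k * x ^ 2 + T * x - c ^ 2 = 0 := by
  have hc2 : 0 < c ^ 2 := by positivity
  set B : ℝ := 1 + |k| + |T| + c ^ 2 with hB
  have hk := abs_nonneg k
  have hT := abs_nonneg T
  have hk1 := le_abs_self k
  have hT2 := neg_abs_le T
  have hB1 : 1 ≤ B := by linarith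
  have hcont : ContinuousOn (fun x : ℝ => x ^ 4 - k * x ^ 2 + T * x - c ^ 2) (Set.Icc 0 B) := by
    fun_prop
  have h1 : (fun x : ℝ => x ^ 4 - k * x ^ 2 + T * x - c ^ 2) 0 ≤ 0 := by
    simp only
    nlinarith
  have h2 : 0 ≤ (fun x : ℝ => x ^ 4 - k * x ^ 2 + T * x - c ^ 2) B := by
    simp only
    have hB2 : B ≤ B ^ 2 := by nlinarith
    have hB3 : B ^ 2 ≤ B ^ 3 := by nlinarith [mul_self_nonneg B]
    have e1 : k * B ^ 2 ≤ |k| * B ^ 3 := by
      calc k * B ^ 2 ≤ |k| * B ^ 2 := by nlinarith [mul_self_nonneg B]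
        _ ≤ |k| * B ^ 3 := by nlinarith
    have e2 : -(T * B) ≤ |T| * B ^ 3 := by
      calc -(T * B) ≤ |T| * B := by nlinarith
        _ ≤ |T| * B ^ 3 := by nlinarith
    have e3 : c ^ 2 ≤ c ^ 2 * B ^ 3 := by nlinarith
    have e4 : B ^ 4 = B ^ 3 + |k| * B ^ 3 + |T| * B ^ 3 + c ^ 2 * B ^ 3 := by
      rw [hB]; ring
    have e5 : 0 ≤ B ^ 3 := by positivity
    linarith
  obtain ⟨x, hx0, hx⟩ := intermediate_value_Icc (by linarith : (0:ℝ) ≤ B) hcont
    (show (0:ℝ) ∈ Set.Icc _ _ from ⟨h1, h2⟩)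
  refine ⟨x, lt_of_le_of_ne hx0.1 ?_, hx⟩
  rintro rfl
  simp only at hx
  nlinarith

end Pool.Agent.Lib.MP_07d99b_al
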