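import Pool.Agent.Lib.MP_07d99b_al.Defs

set_option autoImplicit false

namespace Pool.Agent.Lib.MP_07d99b_al

open MvPolynomial

/-- pull back a polynomial to a line through the origin -/
noncomputable def toLine {n : ℕ} (v : Fin n → ℝ) (q : MvPolynomial (Fin n) ℝ) : Polynomial ℝ :=
  MvPolynomial.aeval (fun i => Polynomial.C (v i) * Polynomial.X) q

theorem eval_toLine {n : ℕ} (v : Fin n → ℝ) (q : MvPolynomial (Fin n) ℝ) (t : ℝ) :
    (toLine v q).eval t = eval (fun i => v i * t) q := by
  unfold toLine
  induction q using MvPolynomial.induction_on with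
  | C a => simp
  | add p q hp hq => simp [hp, hq]
  | mul_X p i hp => simp [hp]

theorem not_zero {p : Fin 0 → MvPolynomial (Fin 0) ℝ} (h : CharPolyType p) : False :=
  h.fibre (Set.toFinite _)

theorem not_one {p : Fin 1 → MvPolynomial (Fin 1) ℝ} (h : CharPolyType p)
    (hs : Function.Surjective (polyMap p)) : False := by
  have h0 : toLine (fun _ => 1) (p 0) = 0 := by
    apply Polynomial.eq_zero_of_infinite_isRoot
    have hinj : Set.InjOn (fun x : Fin 1 → ℝ => x 0) (polyMap p ⁻¹' {0}) := by
      intro x _ y _ hxy
      funext i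
      rw [Subsingleton.elim i 0]
      exact hxy
    refine (h.fibre.image hinj).mono ?_
    rintro _ ⟨x, hx, rfl⟩
    change (toLine (fun _ => 1) (p 0)).eval (x 0) = 0
    rw [eval_toLine]
    have : (fun _ : Fin 1 => 1 * x 0) = x := by
      funext i
      rw [Subsingleton.elim i 0, one_mul]
    rw [this]
    exact congrFun hx 0
  obtain ⟨x, hx⟩ := hs (fun _ => 1)
  have h1 := congrFun hx 0
  have h2 : (toLine (fun _ => 1) (p 0)).eval (x 0) = 0 := by rw [h0]; simp
  rw [eval_toLine] at h2
  have : (fun _ : Fin 1 => 1 * x 0) = x := by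
    funext i
    rw [Subsingleton.elim i 0, one_mul]
  rw [this] at h2
  change eval x (p 0) = 1 at h1
  rw [h2] at h1
  exact zero_ne_one h1

theorem linear_two (q : MvPolynomial (Fin 2) ℝ) (h0 : eval 0 q = 0) (hd : q.totalDegree ≤ 1) :
    q = C (coeff (Finsupp.single 0 1) q) * X 0 + C (coeff (Finsupp.single 1 1) q) * X 1 := by
  ext m
  rw [coeff_add, coeff_C_mul, coeff_C_mul, coeff_X, coeff_X]
  by_cases h1 : Finsupp.single (0 : Fin 2) 1 = m
  · subst h1
    have : ¬ (Finsupp.single (1 : Fin 2) 1 = Finsupp.single 0 1) := by
      rw [Finsupp.single_left_inj (by norm_num)]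
      decide
    simp [this]
  · by_cases h2 : Finsupp.single (1 : Fin 2) 1 = m
    · subst h2
      simp [h1]
    · simp only [h1, h2, if_false, mul_zero, add_zero]
      by_cases h3 : m = 0
      · subst h3
        have : eval 0 q = coeff 0 q := by
          rw [← constantCoeff_eq, ← MvPolynomial.eval_zero]
        rw [← this, h0]
      · by_contra hne
        have h4 : m ∈ q.support := mem_support_iff.mpr hne
        have h5 := le_totalDegree h4
        have h6 : m.sum (fun _ e => e) = m 0 + m 1 := by
          rw [Finsupp.sum_fintype _ _ (fun _ => rfl)]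
          simp [Fin.sum_univ_two]
        rw [h6] at h5
        have h7 : m 0 + m 1 ≤ 1 := le_trans h5 hd
        rcases Nat.eq_zero_or_pos (m 0) with h8 | h8
        · rcases Nat.eq_zero_or_pos (m 1) with h9 | h9
          · apply h3
            ext i
            fin_cases i
            · exact h8
            · exact h9
          · apply h2
            ext i
            fin_cases i
            · simp [h8]
            · simp; omega
        · apply h1
          ext i
          fin_cases i
          · simp; omega
          · simp; omega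

theorem not_two {p : Fin 2 → MvPolynomial (Fin 2) ℝ} (h : CharPolyType p)
    (hs : Function.Surjective (polyMap p)) : False := by
  have hlin := linear_two (p 0) (h.zero 0) (by simpa using h.degree 0)
  set α := coeff (Finsupp.single 0 1) (p 0) with hα
  set β := coeff (Finsupp.single 1 1) (p 0) with hβ
  have hvars := h.vars {0} (Finset.singleton_nonempty 0) (by simp)
  have hv2 : (p 0).vars = Finset.univ := by
    apply Finset.eq_univ_of_card
    simp only [Finset.card_singleton, Finset.singleton_biUnion] at hvars
    have := Finset.card_le_univ (p 0).vars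
    simp only [Fintype.card_fin] at this ⊢
    omega
  have hα0 : α ≠ 0 := by
    intro h0
    rw [h0] at hlin
    have : (0 : Fin 2) ∈ (p 0).vars := by rw [hv2]; simp
    rw [hlin] at this
    simp only [C_0, zero_mul, zero_add] at this
    have h3 := vars_mul _ _ this
    simp at h3
  have hβ0 : β ≠ 0 := by
    intro h0
    rw [h0] at hlin
    have : (1 : Fin 2) ∈ (p 0).vars := by rw [hv2]; simp
    rw [hlin] at this
    simp only [C_0, zero_mul, add_zero] at this
    have h3 := vars_mul _ _ this
    simp at h3
  have hev : ∀ x : Fin 2 → ℝ, eval x (p 0) = α * x 0 + β * x 1 := by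
    intro x
    rw [hlin]
    simp
  -- on the line `p 0 = 0` every point is of the form `(β t, -α t)`
  have hpar : ∀ x : Fin 2 → ℝ, eval x (p 0) = 0 →
      (fun i => (![β, -α] : Fin 2 → ℝ) i * (x 0 / β)) = x := by
    intro x hx
    rw [hev] at hx
    funext i
    fin_cases i
    · simp
      field_simp
    · simp
      field_simp
      linarith
  have h0 : toLine ![β, -α] (p 1) = 0 := by
    apply Polynomial.eq_zero_of_infinite_isRoot
    have hinj : Set.InjOn (fun x : Fin 2 → ℝ => x 0 / β) (polyMap p ⁻¹' {0}) := by
      intro x hx y hy hxy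
      have h1 := hpar x (congrFun hx 0)
      have h2 := hpar y (congrFun hy 0)
      simp only at hxy
      rw [← h1, ← h2, hxy]
    refine (h.fibre.image hinj).mono ?_
    rintro _ ⟨x, hx, rfl⟩
    change (toLine ![β, -α] (p 1)).eval (x 0 / β) = 0
    rw [eval_toLine, hpar x (congrFun hx 0)]
    exact congrFun hx 1
  obtain ⟨x, hx⟩ := hs ![0, 1]
  have h1 : eval x (p 0) = 0 := congrFun hx 0
  have h2 : eval x (p 1) = 1 := congrFun hx 1
  have h3 : (toLine ![β, -α] (p 1)).eval (x 0 / β) = 0 := by rw [h0]; simp
  rw [eval_toLine, hpar x h1, h2] at h3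
  exact one_ne_zero h3

end Pool.Agent.Lib.MP_07d99b_al
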