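import Pool.Agent.Lib.MP_07d99b_al.Example
import Pool.Agent.Lib.MP_07d99b_al.Small

set_option autoImplicit false

namespace Pool.Agent.Lib.MP_07d99b_al

open MvPolynomial

theorem ex3_cases (m : ℕ) (P : Fin (m + 3) → Prop) (h0 : P 0) (h1 : P 1) (h2 : P 2)
    (h : ∀ i, i ≠ 0 → i ≠ 1 → i ≠ 2 → P i) : ∀ i, P i := by
  intro i
  by_cases a0 : i = 0
  · rw [a0]; exact h0
  by_cases a1 : i = 1
  · rw [a1]; exact h1
  by_cases a2 : i = 2
  · rw [a2]; exact h2
  exact h i a0 a1 a2

theorem sum_split (m : ℕ) (x : Fin (m + 3) → ℝ) :
    ∑ j ∈ Finset.univ \ {0, 2}, x j = x 1 + ∑ j ∈ Finset.univ \ {0, 1, 2}, x j := by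
  have : (Finset.univ \ {0, 2} : Finset (Fin (m + 3))) =
      insert 1 (Finset.univ \ {0, 1, 2}) := by
    ext j
    simp only [Finset.mem_sdiff, Finset.mem_univ, true_and, Finset.mem_insert,
      Finset.mem_singleton]
    by_cases h : j = 1
    · subst h
      simp [(h01 m).symm, h12 m]
    · simp [h]
  rw [this, Finset.sum_insert]
  simp

theorem ex3_surj (m : ℕ) : Function.Surjective (polyMap (ex3 m)) := by
  intro c
  set R : Finset (Fin (m + 3)) := Finset.univ \ {0, 1, 2} with hR
  set A : ℝ := c 0 + ∑ j ∈ R, c j with hA
  set k : ℝ := 1 + R.card with hk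
  -- it suffices to find `x` and `z`
  have key : ∃ x z : ℝ, x * z = c 1 ∧ x ^ 3 - x * z ^ 2 + (A - k * x) = c 2 := by
    by_cases hc : c 1 = 0
    · obtain ⟨x, hx⟩ := root_cubic k (A - c 2)
      refine ⟨x, 0, by rw [hc, mul_zero], ?_⟩
      linarith
    · obtain ⟨x, hx0, hx⟩ := root_quartic k (A - c 2) (c 1) hc
      refine ⟨x, c 1 / x, by field_simp, ?_⟩
      have hx0' : x ≠ 0 := hx0.ne'
      have : x * (x ^ 3 - x * (c 1 / x) ^ 2 + (A - k * x)) = x * c 2 := by
        field_simp
        linarith
      exact mul_left_cancel₀ hx0' this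
  obtain ⟨x, z, h1, h2⟩ := key
  refine ⟨fun j => if j = 0 then x else if j = 2 then z else if j = 1 then c 0 - x else c j - x,
    ?_⟩
  funext i
  revert i
  apply ex3_cases m
  · change eval _ (ex3 m 0) = _
    rw [ex3_0]
    simp [(h01 m).symm, h12 m]
  · change eval _ (ex3 m 1) = _
    rw [ex3_1]
    simp only [map_mul, eval_X, if_true, (h02 m).symm, if_false]
    exact h1
  · change eval _ (ex3 m 2) = _
    rw [ex3_2, eval_last3, sum_split]
    simp only [if_true, (h02 m).symm, if_false, (h01 m).symm, h12 m]
    have : ∑ j ∈ R, (if j = 0 then x else if j = 2 then z else if j = 1 then c 0 - x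
        else c j - x) = ∑ j ∈ R, c j - R.card * x := by
      rw [← nsmul_eq_mul, ← Finset.sum_const, ← Finset.sum_sub_distrib]
      apply Finset.sum_congr rfl
      intro j hj
      rw [hR] at hj
      simp only [Finset.mem_sdiff, Finset.mem_univ, true_and, Finset.mem_insert,
        Finset.mem_singleton, not_or] at hj
      rw [if_neg hj.1, if_neg hj.2.2, if_neg hj.2.1]
    rw [← hR, this, ← h2, hA, hk]
    ring
  · intro i a0 a1 a2
    change eval _ (ex3 m i) = _
    rw [ex3_ge m i a0 a1 a2]
    simp [a0, a2, a1]

theorem ex3_type (m : ℕ) : CharPolyType (ex3 m) where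
  zero := by
    apply ex3_cases m
    · rw [ex3_0]; simp
    · rw [ex3_1]; simp
    · rw [ex3_2, eval_last3]; simp
    · intro i a0 a1 a2
      rw [ex3_ge m i a0 a1 a2]; simp
  degree := by
    apply ex3_cases m
    · rw [ex3_0]
      refine le_trans (totalDegree_add _ _) ?_
      simp [totalDegree_X]
    · rw [ex3_1]
      refine le_trans (totalDegree_mul _ _) ?_
      simp [totalDegree_X]
    · rw [ex3_2, val2]
      unfold last3
      refine le_trans (totalDegree_add _ _) (max_le ?_ ?_)
      · refine le_trans (totalDegree_sub _ _) (max_le ?_ ?_)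
        · rw [totalDegree_X_pow]
        · refine le_trans (totalDegree_mul _ _) ?_
          rw [totalDegree_X_pow, totalDegree_X]
      · refine le_trans (totalDegree_finsetSum _ _) ?_
        apply Finset.sup_le
        intro j _
        rw [totalDegree_X]
        omega
    · intro i a0 a1 a2
      rw [ex3_ge m i a0 a1 a2]
      refine le_trans (totalDegree_add _ _) ?_
      simp [totalDegree_X]
  fibre := by
    have hinj : Function.Injective (fun (t : ℝ) (j : Fin (m + 3)) => if j = 2 then t else 0) := by
      intro s t hst
      simpa using congrFun hst 2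
    refine (Set.infinite_range_of_injective hinj).mono ?_
    rintro _ ⟨t, rfl⟩
    change polyMap (ex3 m) _ = 0
    funext i
    revert i
    apply ex3_cases m
    · change eval _ (ex3 m 0) = _
      rw [ex3_0]
      simp [h02 m, h12 m]
    · change eval _ (ex3 m 1) = _
      rw [ex3_1]
      simp [h02 m]
    · change eval _ (ex3 m 2) = _
      rw [ex3_2, eval_last3]
      simp only [h02 m, if_false, if_true]
      rw [Finset.sum_eq_zero]
      · simp
      · intro j hj
        simp only [Finset.mem_sdiff, Finset.mem_univ, true_and, Finset.mem_insert,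
          Finset.mem_singleton, not_or] at hj
        rw [if_neg hj.2]
    · intro i a0 a1 a2
      change eval _ (ex3 m i) = _
      rw [ex3_ge m i a0 a1 a2]
      simp [h02 m, a2]
  vars := by
    classical
    intro s hs hcard
    by_cases h2 : (2 : Fin (m + 3)) ∈ s
    · have : (s.biUnion fun i => (ex3 m i).vars) = Finset.univ := by
        rw [Finset.eq_univ_iff_forall]
        intro j
        rw [Finset.mem_biUnion]
        exact ⟨2, h2, by rw [ex3_2, vars_last3]; exact Finset.mem_univ j⟩
      rw [this, Finset.card_univ, Fintype.card_fin]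
      exact hcard
    · -- the injection
      let φ : Fin (m + 3) → Fin (m + 3) := fun i => if i = 0 then 1 else if i = 1 then 2 else i
      have hφ : Set.InjOn φ s := by
        intro a ha b hb hab
        have ha2 : a ≠ 2 := fun h => h2 (h ▸ ha)
        have hb2 : b ≠ 2 := fun h => h2 (h ▸ hb)
        simp only [φ] at hab
        by_cases a0 : a = 0
        · by_cases b0 : b = 0
          · rw [a0, b0]
          · rw [if_pos a0, if_neg b0] at hab
            by_cases b1 : b = 1
            · rw [if_pos b1] at hab
              exact absurd hab (h12 m)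
            · rw [if_neg b1] at hab
              exact absurd hab.symm b1
        · by_cases b0 : b = 0
          · rw [if_neg a0, if_pos b0] at hab
            by_cases a1 : a = 1
            · rw [if_pos a1] at hab
              exact absurd hab.symm (h12 m)
            · rw [if_neg a1] at hab
              exact absurd hab a1
          · rw [if_neg a0, if_neg b0] at hab
            by_cases a1 : a = 1
            · by_cases b1 : b = 1
              · rw [a1, b1]
              · rw [if_pos a1, if_neg b1] at hab
                exact absurd hab.symm hb2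
            · by_cases b1 : b = 1
              · rw [if_neg a1, if_pos b1] at hab
                exact absurd hab ha2
              · rw [if_neg a1, if_neg b1] at hab
                exact hab
      have hzero : (0 : Fin (m + 3)) ∉ s.image φ := by
        intro h
        rw [Finset.mem_image] at h
        obtain ⟨a, _, ha⟩ := h
        simp only [φ] at ha
        by_cases a0 : a = 0
        · rw [if_pos a0] at ha
          exact (h01 m).symm ha
        · rw [if_neg a0] at ha
          by_cases a1 : a = 1
          · rw [if_pos a1] at ha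
            exact (h02 m).symm ha
          · rw [if_neg a1] at ha
            exact a0 ha
      have hmem : ∀ i, i ≠ 2 → (0 : Fin (m + 3)) ∈ (ex3 m i).vars ∧ φ i ∈ (ex3 m i).vars := by
        apply ex3_cases m
        · intro _
          rw [ex3_0]
          simpa [φ] using vars_add_X (0 : Fin (m + 3)) 1 (h01 m)
        · intro _
          rw [ex3_1]
          simpa [φ, (h01 m).symm] using vars_mul_X (0 : Fin (m + 3)) 2
        · intro h; exact absurd rfl h
        · intro i a0 a1 a2 _
          rw [ex3_ge m i a0 a1 a2]
          simpa [φ, a0, a1] using vars_add_X (0 : Fin (m + 3)) i (Ne.symm a0)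
      have hsub : insert 0 (s.image φ) ⊆ s.biUnion fun i => (ex3 m i).vars := by
        intro j hj
        rw [Finset.mem_biUnion]
        rw [Finset.mem_insert] at hj
        rcases hj with rfl | hj
        · obtain ⟨i, hi⟩ := hs
          exact ⟨i, hi, (hmem i (fun h => h2 (h ▸ hi))).1⟩
        · rw [Finset.mem_image] at hj
          obtain ⟨i, hi, rfl⟩ := hj
          exact ⟨i, hi, (hmem i (fun h => h2 (h ▸ hi))).2⟩
      calc s.card + 1 = (insert 0 (s.image φ)).card := by
            rw [Finset.card_insert_of_notMem hzero, Finset.card_image_of_injOn hφ]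
        _ ≤ _ := Finset.card_le_card hsub
  coeffs := by
    apply ex3_cases m
    · rw [ex3_0]; exact coeffs_add_X _ _ (h01 m)
    · rw [ex3_1]; exact coeffs_mul_X _ _
    · rw [ex3_2]; exact coeffs_last3 m
    · intro i a0 a1 a2
      rw [ex3_ge m i a0 a1 a2]
      exact coeffs_add_X _ _ (Ne.symm a0)

theorem exists_iff (n : ℕ) : (∃ p : Fin n → MvPolynomial (Fin n) ℝ,
    CharPolyType p ∧ Function.Surjective (polyMap p)) ↔ 3 ≤ n := by
  constructor
  · rintro ⟨p, h1, h2⟩
    by_contra hn
    match n, p, h1, h2, hn with
    | 0, p, h1, _, _ => exact not_zero h1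
    | 1, p, h1, h2, _ => exact not_one h1 h2
    | 2, p, h1, h2, _ => exact not_two h1 h2
    | n + 3, _, _, _, hn => omega
  · intro hn
    obtain ⟨m, rfl⟩ : ∃ m, n = m + 3 := ⟨n - 3, by omega⟩
    exact ⟨ex3 m, ex3_type m, ex3_surj m⟩

end Pool.Agent.Lib.MP_07d99b_al
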