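import Pool.Agent.Lib.MP_07d99b_al.Example

set_option autoImplicit false

namespace Pool.Agent.Lib.MP_07d99b_al

open MvPolynomial

theorem root_cubic' (a b T : ℝ) : ∃ x : ℝ, x ^ 3 + a * x ^ 2 + b * x + T = 0 := by
  set B : ℝ := 1 + |a| + |b| + |T| with hB
  have ha := abs_nonneg a
  have hb := abs_nonneg b
  have hT := abs_nonneg T
  have hB1 : 1 ≤ B := by linarith
  have hB0 : 0 ≤ B := by linarith
  have p2 : 0 ≤ B ^ 2 := by positivity
  have hB2 : B ≤ B ^ 2 := le_self_pow₀ hB1 (by norm_num)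
  have hB02 : 1 ≤ B ^ 2 := one_le_pow₀ hB1
  have e4 : B ^ 3 = B ^ 2 + |a| * B ^ 2 + |b| * B ^ 2 + |T| * B ^ 2 := by
    rw [hB]; ring
  have a1 := mul_le_mul_of_nonneg_right (le_abs_self a) p2
  have a2 := mul_le_mul_of_nonneg_right (neg_le_abs a) p2
  have b1 := mul_le_mul_of_nonneg_right (le_abs_self b) hB0
  have b2 := mul_le_mul_of_nonneg_right (neg_le_abs b) hB0
  have b3 := mul_le_mul_of_nonneg_left hB2 hb
  have t1 := le_abs_self T
  have t2 := neg_le_abs T
  have t3 : |T| ≤ |T| * B ^ 2 := le_mul_of_one_le_right hT hB02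
  have hcont : ContinuousOn (fun x : ℝ => x ^ 3 + a * x ^ 2 + b * x + T) (Set.Icc (-B) B) := by
    fun_prop
  have h1 : (fun x : ℝ => x ^ 3 + a * x ^ 2 + b * x + T) (-B) ≤ 0 := by
    simp only
    have : (-B) ^ 3 + a * (-B) ^ 2 + b * (-B) + T = -(B ^ 3) + a * B ^ 2 - b * B + T := by ring
    rw [this, e4]
    linarith
  have h2 : 0 ≤ (fun x : ℝ => x ^ 3 + a * x ^ 2 + b * x + T) B := by
    simp only
    rw [e4]
    linarith
  obtain ⟨x, _, hx⟩ := intermediate_value_Icc (by linarith : -B ≤ B) hcont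
    (show (0:ℝ) ∈ Set.Icc _ _ from ⟨h1, h2⟩)
  exact ⟨x, hx⟩

theorem root_quartic' (a b T c : ℝ) (hc : c ≠ 0) :
    ∃ x : ℝ, 0 < x ∧ x ^ 4 + a * x ^ 3 + b * x ^ 2 + T * x - c ^ 2 = 0 := by
  have hc2 : 0 < c ^ 2 := by positivity
  set B : ℝ := 1 + |a| + |b| + |T| + c ^ 2 with hB
  have ha := abs_nonneg a
  have hb := abs_nonneg b
  have hT := abs_nonneg T
  have hB1 : 1 ≤ B := by linarith
  have hB0 : 0 ≤ B := by linarith
  have p2 : 0 ≤ B ^ 2 := by positivity
  have p3 : 0 ≤ B ^ 3 := by positivity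
  have hB13 : B ≤ B ^ 3 := le_self_pow₀ hB1 (by norm_num)
  have hB23 : B ^ 2 ≤ B ^ 3 := pow_le_pow_right₀ hB1 (by norm_num)
  have hB03 : 1 ≤ B ^ 3 := one_le_pow₀ hB1
  have hcont : ContinuousOn (fun x : ℝ => x ^ 4 + a * x ^ 3 + b * x ^ 2 + T * x - c ^ 2)
      (Set.Icc 0 B) := by
    fun_prop
  have h1 : (fun x : ℝ => x ^ 4 + a * x ^ 3 + b * x ^ 2 + T * x - c ^ 2) 0 ≤ 0 := by
    simp only
    linarith
  have h2 : 0 ≤ (fun x : ℝ => x ^ 4 + a * x ^ 3 + b * x ^ 2 + T * x - c ^ 2) B := by
    simp only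
    have e4 : B ^ 4 = B ^ 3 + |a| * B ^ 3 + |b| * B ^ 3 + |T| * B ^ 3 + c ^ 2 * B ^ 3 := by
      rw [hB]; ring
    have e0 : -(a * B ^ 3) ≤ |a| * B ^ 3 := by
      have := mul_le_mul_of_nonneg_right (neg_le_abs a) p3
      linarith
    have e1 : -(b * B ^ 2) ≤ |b| * B ^ 3 := by
      have t1 := mul_le_mul_of_nonneg_right (neg_le_abs b) p2
      have t2 := mul_le_mul_of_nonneg_left hB23 hb
      linarith
    have e2 : -(T * B) ≤ |T| * B ^ 3 := by
      have t1 := mul_le_mul_of_nonneg_right (neg_le_abs T) hB0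
      have t2 := mul_le_mul_of_nonneg_left hB13 hT
      linarith
    have e3 : c ^ 2 ≤ c ^ 2 * B ^ 3 := le_mul_of_one_le_right hc2.le hB03
    linarith
  obtain ⟨x, hx0, hx⟩ := intermediate_value_Icc (by linarith : (0:ℝ) ≤ B) hcont
    (show (0:ℝ) ∈ Set.Icc _ _ from ⟨h1, h2⟩)
  refine ⟨x, lt_of_le_of_ne hx0.1 ?_, hx⟩
  rintro rfl
  simp only at hx
  linarith

/-- the last component of the squarefree example -/
noncomputable def last5 (m : ℕ) : MvPolynomial (Fin (m + 5)) ℝ :=
  X 0 * X 1 * X 2 + X 0 * X 3 * X 4 + ∑ j ∈ Finset.univ \ {0, 1, 2, 3, 4}, X j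

/-- the squarefree example -/
noncomputable def ex5 (m : ℕ) : Fin (m + 5) → MvPolynomial (Fin (m + 5)) ℝ := fun i =>
  if i = 0 then X 0 + X 1 else if i = 1 then X 0 + X 2 else if i = 2 then X 3 + X 4 else
  if i = 3 then X 0 * X 3 else if i = 4 then last5 m else X 0 + X i


theorem v1 (m : ℕ) : ((1 : Fin (m + 5)) : ℕ) = 1 := by
  have h : 1 % (m + 5) = 1 := Nat.mod_eq_of_lt (by omega)
  exact h
theorem v2 (m : ℕ) : ((2 : Fin (m + 5)) : ℕ) = 2 := by
  have h : 2 % (m + 5) = 2 := Nat.mod_eq_of_lt (by omega)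
  exact h
theorem v3 (m : ℕ) : ((3 : Fin (m + 5)) : ℕ) = 3 := by
  have h : 3 % (m + 5) = 3 := Nat.mod_eq_of_lt (by omega)
  exact h
theorem v4 (m : ℕ) : ((4 : Fin (m + 5)) : ℕ) = 4 := by
  have h : 4 % (m + 5) = 4 := Nat.mod_eq_of_lt (by omega)
  exact h

theorem n01 (m : ℕ) : (0 : Fin (m + 5)) ≠ 1 := by
  intro h; have := congrArg Fin.val h; rw [v1] at this; simp at this
theorem n02 (m : ℕ) : (0 : Fin (m + 5)) ≠ 2 := by
  intro h; have := congrArg Fin.val h; rw [v2] at this; simp at this
theorem n03 (m : ℕ) : (0 : Fin (m + 5)) ≠ 3 := by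
  intro h; have := congrArg Fin.val h; rw [v3] at this; simp at this
theorem n04 (m : ℕ) : (0 : Fin (m + 5)) ≠ 4 := by
  intro h; have := congrArg Fin.val h; rw [v4] at this; simp at this
theorem n12 (m : ℕ) : (1 : Fin (m + 5)) ≠ 2 := by
  intro h; have := congrArg Fin.val h; rw [v1, v2] at this; simp at this
theorem n13 (m : ℕ) : (1 : Fin (m + 5)) ≠ 3 := by
  intro h; have := congrArg Fin.val h; rw [v1, v3] at this; simp at this
theorem n14 (m : ℕ) : (1 : Fin (m + 5)) ≠ 4 := by
  intro h; have := congrArg Fin.val h; rw [v1, v4] at this; simp at this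
theorem n23 (m : ℕ) : (2 : Fin (m + 5)) ≠ 3 := by
  intro h; have := congrArg Fin.val h; rw [v2, v3] at this; simp at this
theorem n24 (m : ℕ) : (2 : Fin (m + 5)) ≠ 4 := by
  intro h; have := congrArg Fin.val h; rw [v2, v4] at this; simp at this
theorem n34 (m : ℕ) : (3 : Fin (m + 5)) ≠ 4 := by
  intro h; have := congrArg Fin.val h; rw [v3, v4] at this; simp at this

/-- the exponent vector of a product of three variables -/
noncomputable def tri {n : ℕ} (i j k : Fin n) : Fin n →₀ ℕ :=
  Finsupp.single i 1 + Finsupp.single j 1 + Finsupp.single k 1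

theorem tri_mono {n : ℕ} (i j k : Fin n) :
    (X i * X j * X k : MvPolynomial (Fin n) ℝ) = monomial (tri i j k) 1 := by
  rw [X, X, X, monomial_mul, monomial_mul, one_mul, one_mul, tri]

theorem coeff_last5 (m : ℕ) (d : Fin (m + 5) →₀ ℕ) : coeff d (last5 m) =
    (if tri 0 1 2 = d then 1 else 0) + (if tri 0 3 4 = d then 1 else 0) +
    (if ∃ j ∈ (Finset.univ \ {0, 1, 2, 3, 4} : Finset (Fin (m + 5))), Finsupp.single j 1 = d
      then 1 else 0) := by
  unfold last5
  rw [coeff_add, coeff_add, coeff_sum_X, tri_mono, tri_mono, coeff_monomial, coeff_monomial]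

theorem tri_ne (m : ℕ) : (tri 0 1 2 : Fin (m + 5) →₀ ℕ) ≠ tri 0 3 4 := by
  intro h
  have := DFunLike.congr_fun h 1
  simp [tri, (n12 m).symm, (n13 m).symm, (n14 m).symm] at this

theorem single_ne_tri {n : ℕ} (a i j k : Fin n) : (Finsupp.single a 1 : Fin n →₀ ℕ) ≠ tri i j k := by
  intro h
  have := congrArg (fun d => d.sum fun _ e => e) h
  unfold tri at this
  rw [Finsupp.sum_add_index' (fun _ => rfl) (fun _ _ _ => rfl),
    Finsupp.sum_add_index' (fun _ => rfl) (fun _ _ _ => rfl)] at this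
  simp at this

theorem coeff_last5_tri1 (m : ℕ) : coeff (tri 0 1 2) (last5 m) = 1 := by
  rw [coeff_last5, if_pos rfl, if_neg (tri_ne m).symm, if_neg]
  · norm_num
  · rintro ⟨j, _, h⟩
    exact single_ne_tri _ _ _ _ h

theorem coeff_last5_tri2 (m : ℕ) : coeff (tri 0 3 4) (last5 m) = 1 := by
  rw [coeff_last5, if_neg (tri_ne m), if_pos rfl, if_neg]
  · norm_num
  · rintro ⟨j, _, h⟩
    exact single_ne_tri _ _ _ _ h

theorem coeff_last5_single (m : ℕ) (j : Fin (m + 5))
    (hj : j ∈ (Finset.univ \ {0, 1, 2, 3, 4} : Finset (Fin (m + 5)))) :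
    coeff (Finsupp.single j 1) (last5 m) = 1 := by
  rw [coeff_last5, if_neg (single_ne_tri _ _ _ _).symm, if_neg (single_ne_tri _ _ _ _).symm,
    if_pos ⟨j, hj, rfl⟩]
  norm_num

theorem support_last5 (m : ℕ) (d : Fin (m + 5) →₀ ℕ) (hd : coeff d (last5 m) ≠ 0) :
    coeff d (last5 m) = 1 ∧ (d = tri 0 1 2 ∨ d = tri 0 3 4 ∨
      ∃ j ∈ (Finset.univ \ {0, 1, 2, 3, 4} : Finset (Fin (m + 5))), d = Finsupp.single j 1) := by
  by_cases h1 : tri 0 1 2 = d
  · subst h1
    exact ⟨coeff_last5_tri1 m, Or.inl rfl⟩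
  · by_cases h2 : tri 0 3 4 = d
    · subst h2
      exact ⟨coeff_last5_tri2 m, Or.inr (Or.inl rfl)⟩
    · by_cases h3 : ∃ j ∈ (Finset.univ \ {0, 1, 2, 3, 4} : Finset (Fin (m + 5))),
          Finsupp.single j 1 = d
      · obtain ⟨j, hj, rfl⟩ := h3
        exact ⟨coeff_last5_single m j hj, Or.inr (Or.inr ⟨j, hj, rfl⟩)⟩
      · exfalso
        apply hd
        rw [coeff_last5, if_neg h1, if_neg h2, if_neg h3]
        norm_num

theorem vars_last5 (m : ℕ) : (last5 m).vars = Finset.univ := by
  rw [Finset.eq_univ_iff_forall]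
  intro j
  rw [mem_vars_iff_mem_support]
  by_cases hj : j ∈ (Finset.univ \ {0, 1, 2, 3, 4} : Finset (Fin (m + 5)))
  · refine ⟨Finsupp.single j 1, ?_, by simp⟩
    rw [mem_support_iff, coeff_last5_single m j hj]
    exact one_ne_zero
  · simp only [Finset.mem_sdiff, Finset.mem_univ, true_and, Finset.mem_insert,
      Finset.mem_singleton, not_not] at hj
    have h1 : (tri 0 1 2 : Fin (m + 5) →₀ ℕ) ∈ (last5 m).support := by
      rw [mem_support_iff, coeff_last5_tri1]; exact one_ne_zero
    have h2 : (tri 0 3 4 : Fin (m + 5) →₀ ℕ) ∈ (last5 m).support := by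
      rw [mem_support_iff, coeff_last5_tri2]; exact one_ne_zero
    rcases hj with rfl | rfl | rfl | rfl | rfl
    · exact ⟨_, h1, by simp [tri, Finsupp.mem_support_iff]⟩
    · exact ⟨_, h1, by simp [tri, Finsupp.mem_support_iff]⟩
    · exact ⟨_, h1, by simp [tri, Finsupp.mem_support_iff]⟩
    · exact ⟨_, h2, by simp [tri, Finsupp.mem_support_iff]⟩
    · exact ⟨_, h2, by simp [tri, Finsupp.mem_support_iff]⟩

theorem eval_last5 (m : ℕ) (x : Fin (m + 5) → ℝ) : eval x (last5 m) =
    x 0 * x 1 * x 2 + x 0 * x 3 * x 4 + ∑ j ∈ Finset.univ \ {0, 1, 2, 3, 4}, x j := by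
  unfold last5
  simp

theorem ex5_0 (m : ℕ) : ex5 m 0 = X 0 + X 1 := by simp [ex5]
theorem ex5_1 (m : ℕ) : ex5 m 1 = X 0 + X 2 := by simp [ex5, (n01 m).symm]
theorem ex5_2 (m : ℕ) : ex5 m 2 = X 3 + X 4 := by simp [ex5, (n02 m).symm, (n12 m).symm]
theorem ex5_3 (m : ℕ) : ex5 m 3 = X 0 * X 3 := by
  simp [ex5, (n03 m).symm, (n13 m).symm, (n23 m).symm]
theorem ex5_4 (m : ℕ) : ex5 m 4 = last5 m := by
  simp [ex5, (n04 m).symm, (n14 m).symm, (n24 m).symm, (n34 m).symm]
theorem ex5_ge (m : ℕ) (i : Fin (m + 5)) (h0 : i ≠ 0) (h1 : i ≠ 1) (h2 : i ≠ 2) (h3 : i ≠ 3)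
    (h4 : i ≠ 4) : ex5 m i = X 0 + X i := by simp [ex5, h0, h1, h2, h3, h4]

theorem ex5_cases (m : ℕ) (P : Fin (m + 5) → Prop) (h0 : P 0) (h1 : P 1) (h2 : P 2) (h3 : P 3)
    (h4 : P 4) (h : ∀ i, i ≠ 0 → i ≠ 1 → i ≠ 2 → i ≠ 3 → i ≠ 4 → P i) : ∀ i, P i := by
  intro i
  by_cases a0 : i = 0
  · rw [a0]; exact h0
  by_cases a1 : i = 1
  · rw [a1]; exact h1
  by_cases a2 : i = 2
  · rw [a2]; exact h2
  by_cases a3 : i = 3
  · rw [a3]; exact h3
  by_cases a4 : i = 4
  · rw [a4]; exact h4
  exact h i a0 a1 a2 a3 a4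

theorem ex5_surj (m : ℕ) : Function.Surjective (polyMap (ex5 m)) := by
  intro c
  set R : Finset (Fin (m + 5)) := Finset.univ \ {0, 1, 2, 3, 4} with hR
  set A : ℝ := ∑ j ∈ R, c j with hA
  set k : ℝ := (R.card : ℝ) with hk
  have key : ∃ x z : ℝ, x * z = c 3 ∧
      x * (c 0 - x) * (c 1 - x) + x * z * (c 2 - z) + (A - k * x) = c 4 := by
    by_cases hc : c 3 = 0
    · obtain ⟨x, hx⟩ := root_cubic' (-(c 0 + c 1)) (c 0 * c 1 - k) (A - c 4)
      refine ⟨x, 0, by rw [hc, mul_zero], ?_⟩
      linarith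
    · obtain ⟨x, hx0, hx⟩ := root_quartic' (-(c 0 + c 1)) (c 0 * c 1 - k)
        (c 3 * c 2 + A - c 4) (c 3) hc
      refine ⟨x, c 3 / x, by field_simp, ?_⟩
      have hx0' : x ≠ 0 := hx0.ne'
      have : x * (x * (c 0 - x) * (c 1 - x) + x * (c 3 / x) * (c 2 - c 3 / x) + (A - k * x)) =
          x * c 4 := by
        field_simp
        linarith
      exact mul_left_cancel₀ hx0' this
  obtain ⟨x, z, h1, h2⟩ := key
  refine ⟨fun j => if j = 0 then x else if j = 1 then c 0 - x else if j = 2 then c 1 - x else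
    if j = 3 then z else if j = 4 then c 2 - z else c j - x, ?_⟩
  funext i
  revert i
  apply ex5_cases m
  · change eval _ (ex5 m 0) = _
    rw [ex5_0]
    simp [(n01 m).symm]
  · change eval _ (ex5 m 1) = _
    rw [ex5_1]
    simp [(n02 m).symm, (n12 m).symm]
  · change eval _ (ex5 m 2) = _
    rw [ex5_2]
    simp [(n03 m).symm, (n13 m).symm, (n23 m).symm, (n04 m).symm, (n14 m).symm, (n24 m).symm,
      (n34 m).symm]
  · change eval _ (ex5 m 3) = _
    rw [ex5_3]
    simp only [map_mul, eval_X, if_true, (n03 m).symm, (n13 m).symm, (n23 m).symm, if_false]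
    exact h1
  · change eval _ (ex5 m 4) = _
    rw [ex5_4, eval_last5]
    simp only [if_true, (n03 m).symm, (n13 m).symm, (n23 m).symm, (n01 m).symm, (n02 m).symm,
      (n12 m).symm, (n04 m).symm, (n14 m).symm, (n24 m).symm, (n34 m).symm, if_false]
    have : ∑ j ∈ R, (if j = 0 then x else if j = 1 then c 0 - x else if j = 2 then c 1 - x else
        if j = 3 then z else if j = 4 then c 2 - z else c j - x) = ∑ j ∈ R, c j - R.card * x := by
      rw [← nsmul_eq_mul, ← Finset.sum_const, ← Finset.sum_sub_distrib]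
      apply Finset.sum_congr rfl
      intro j hj
      rw [hR] at hj
      simp only [Finset.mem_sdiff, Finset.mem_univ, true_and, Finset.mem_insert,
        Finset.mem_singleton, not_or] at hj
      rw [if_neg hj.1, if_neg hj.2.1, if_neg hj.2.2.1, if_neg hj.2.2.2.1, if_neg hj.2.2.2.2]
    rw [← hR, this, ← h2, hA, hk]
  · intro i a0 a1 a2 a3 a4
    change eval _ (ex5 m i) = _
    rw [ex5_ge m i a0 a1 a2 a3 a4]
    simp [a0, a1, a2, a3, a4]

theorem ex5_type (m : ℕ) : CharPolyType (ex5 m) where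
  zero := by
    apply ex5_cases m
    · rw [ex5_0]; simp
    · rw [ex5_1]; simp
    · rw [ex5_2]; simp
    · rw [ex5_3]; simp
    · rw [ex5_4, eval_last5]; simp
    · intro i a0 a1 a2 a3 a4
      rw [ex5_ge m i a0 a1 a2 a3 a4]; simp
  degree := by
    apply ex5_cases m
    · rw [ex5_0]
      refine le_trans (totalDegree_add _ _) ?_
      simp [totalDegree_X]
    · rw [ex5_1]
      refine le_trans (totalDegree_add _ _) ?_
      simp [totalDegree_X]
    · rw [ex5_2]
      refine le_trans (totalDegree_add _ _) ?_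
      simp [totalDegree_X]
    · rw [ex5_3, v3]
      refine le_trans (totalDegree_mul _ _) ?_
      simp [totalDegree_X]
    · rw [ex5_4, v4]
      unfold last5
      refine le_trans (totalDegree_add _ _) (max_le ?_ ?_)
      · refine le_trans (totalDegree_add _ _) (max_le ?_ ?_)
        · refine le_trans (totalDegree_mul _ _) ?_
          have := totalDegree_mul (X 0 : MvPolynomial (Fin (m + 5)) ℝ) (X 1)
          rw [totalDegree_X, totalDegree_X] at this
          rw [totalDegree_X]
          omega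
        · refine le_trans (totalDegree_mul _ _) ?_
          have := totalDegree_mul (X 0 : MvPolynomial (Fin (m + 5)) ℝ) (X 3)
          rw [totalDegree_X, totalDegree_X] at this
          rw [totalDegree_X]
          omega
      · refine le_trans (totalDegree_finsetSum _ _) ?_
        apply Finset.sup_le
        intro j _
        rw [totalDegree_X]
        omega
    · intro i a0 a1 a2 a3 a4
      rw [ex5_ge m i a0 a1 a2 a3 a4]
      refine le_trans (totalDegree_add _ _) ?_
      simp [totalDegree_X]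
  fibre := by
    have hinj : Function.Injective (fun (t : ℝ) (j : Fin (m + 5)) =>
        if j = 3 then t else if j = 4 then -t else 0) := by
      intro s t hst
      simpa using congrFun hst 3
    refine (Set.infinite_range_of_injective hinj).mono ?_
    rintro _ ⟨t, rfl⟩
    change polyMap (ex5 m) _ = 0
    funext i
    revert i
    apply ex5_cases m
    · change eval _ (ex5 m 0) = _
      rw [ex5_0]
      simp [n03 m, n13 m, n04 m, n14 m]
    · change eval _ (ex5 m 1) = _
      rw [ex5_1]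
      simp [n03 m, n23 m, n04 m, n24 m]
    · change eval _ (ex5 m 2) = _
      rw [ex5_2]
      simp [(n34 m).symm]
    · change eval _ (ex5 m 3) = _
      rw [ex5_3]
      simp [n03 m, n04 m]
    · change eval _ (ex5 m 4) = _
      rw [ex5_4, eval_last5]
      simp only [n03 m, n04 m, if_false]
      rw [Finset.sum_eq_zero]
      · simp
      · intro j hj
        simp only [Finset.mem_sdiff, Finset.mem_univ, true_and, Finset.mem_insert,
          Finset.mem_singleton, not_or] at hj
        rw [if_neg hj.2.2.2.1, if_neg hj.2.2.2.2]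
    · intro i a0 a1 a2 a3 a4
      change eval _ (ex5 m i) = _
      rw [ex5_ge m i a0 a1 a2 a3 a4]
      simp [n03 m, n04 m, a3, a4]
  vars := by
    classical
    intro s hs hcard
    by_cases h4 : (4 : Fin (m + 5)) ∈ s
    · have : (s.biUnion fun i => (ex5 m i).vars) = Finset.univ := by
        rw [Finset.eq_univ_iff_forall]
        intro j
        rw [Finset.mem_biUnion]
        exact ⟨4, h4, by rw [ex5_4, vars_last5]; exact Finset.mem_univ j⟩
      rw [this, Finset.card_univ, Fintype.card_fin]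
      exact hcard
    · -- the injection
      let φ : Fin (m + 5) → Fin (m + 5) := fun i =>
        if i = 0 then 1 else if i = 1 then 2 else if i = 2 then 4 else i
      have φ0 : φ 0 = 1 := by simp [φ]
      have φ1 : φ 1 = 2 := by simp [φ, (n01 m).symm]
      have φ2 : φ 2 = 4 := by simp [φ, (n02 m).symm, (n12 m).symm]
      have φge : ∀ i, i ≠ 0 → i ≠ 1 → i ≠ 2 → φ i = i := by
        intro i a0 a1 a2; simp [φ, a0, a1, a2]
      have hφ : Set.InjOn φ s := by
        intro a ha b hb hab
        have ha4 : a ≠ 4 := fun h => h4 (h ▸ ha)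
        have hb4 : b ≠ 4 := fun h => h4 (h ▸ hb)
        by_cases a0 : a = 0
        · subst a0
          rw [φ0] at hab
          by_cases b0 : b = 0
          · rw [b0]
          by_cases b1 : b = 1
          · subst b1; rw [φ1] at hab; exact absurd hab (n12 m)
          by_cases b2 : b = 2
          · subst b2; rw [φ2] at hab; exact absurd hab (n14 m)
          rw [φge b b0 b1 b2] at hab
          exact absurd hab.symm b1
        by_cases a1 : a = 1
        · subst a1
          rw [φ1] at hab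
          by_cases b0 : b = 0
          · subst b0; rw [φ0] at hab; exact absurd hab.symm (n12 m)
          by_cases b1 : b = 1
          · rw [b1]
          by_cases b2 : b = 2
          · subst b2; rw [φ2] at hab; exact absurd hab (n24 m)
          rw [φge b b0 b1 b2] at hab
          exact absurd hab.symm b2
        by_cases a2 : a = 2
        · subst a2
          rw [φ2] at hab
          by_cases b0 : b = 0
          · subst b0; rw [φ0] at hab; exact absurd hab.symm (n14 m)
          by_cases b1 : b = 1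
          · subst b1; rw [φ1] at hab; exact absurd hab.symm (n24 m)
          by_cases b2 : b = 2
          · rw [b2]
          rw [φge b b0 b1 b2] at hab
          exact absurd hab.symm hb4
        rw [φge a a0 a1 a2] at hab
        by_cases b0 : b = 0
        · subst b0; rw [φ0] at hab; exact absurd hab a1
        by_cases b1 : b = 1
        · subst b1; rw [φ1] at hab; exact absurd hab a2
        by_cases b2 : b = 2
        · subst b2; rw [φ2] at hab; exact absurd hab ha4
        rw [φge b b0 b1 b2] at hab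
        exact hab
      -- membership of the root of the corresponding edge and of `φ i`
      have hmem : ∀ i, i ≠ 4 → φ i ∈ (ex5 m i).vars ∧
          (i ≠ 2 → (0 : Fin (m + 5)) ∈ (ex5 m i).vars) ∧
          (i = 2 → (3 : Fin (m + 5)) ∈ (ex5 m i).vars) := by
        apply ex5_cases m
        · intro _
          have := vars_add_X (0 : Fin (m + 5)) 1 (n01 m)
          rw [ex5_0, φ0]
          exact ⟨this.2, fun _ => this.1, fun h => absurd h (n02 m)⟩
        · intro _
          have := vars_add_X (0 : Fin (m + 5)) 2 (n02 m)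
          rw [ex5_1, φ1]
          exact ⟨this.2, fun _ => this.1, fun h => absurd h (n12 m)⟩
        · intro _
          have := vars_add_X (3 : Fin (m + 5)) 4 (n34 m)
          rw [ex5_2, φ2]
          exact ⟨this.2, fun h => absurd rfl h, fun _ => this.1⟩
        · intro _
          have := vars_mul_X (0 : Fin (m + 5)) 3
          rw [ex5_3, φge 3 (n03 m).symm (n13 m).symm (n23 m).symm]
          exact ⟨this.2, fun _ => this.1, fun h => absurd h.symm (n23 m)⟩
        · intro h; exact absurd rfl h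
        · intro i a0 a1 a2 a3 a4 _
          have := vars_add_X (0 : Fin (m + 5)) i (Ne.symm a0)
          rw [ex5_ge m i a0 a1 a2 a3 a4, φge i a0 a1 a2]
          exact ⟨this.2, fun _ => this.1, fun h => absurd h a2⟩
      have himg : s.image φ ⊆ s.biUnion fun i => (ex5 m i).vars := by
        intro j hj
        rw [Finset.mem_biUnion]
        rw [Finset.mem_image] at hj
        obtain ⟨i, hi, rfl⟩ := hj
        exact ⟨i, hi, (hmem i (fun h => h4 (h ▸ hi))).1⟩
      have hcardimg : (s.image φ).card = s.card := Finset.card_image_of_injOn hφ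
      have hzero : (0 : Fin (m + 5)) ∉ s.image φ := by
        intro h
        rw [Finset.mem_image] at h
        obtain ⟨a, _, ha⟩ := h
        by_cases a0 : a = 0
        · subst a0; rw [φ0] at ha; exact (n01 m).symm ha
        by_cases a1 : a = 1
        · subst a1; rw [φ1] at ha; exact (n02 m).symm ha
        by_cases a2 : a = 2
        · subst a2; rw [φ2] at ha; exact (n04 m).symm ha
        rw [φge a a0 a1 a2] at ha
        exact a0 ha
      by_cases hex : ∃ i ∈ s, i ≠ 2
      · obtain ⟨i, hi, hi2⟩ := hex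
        have hsub : insert 0 (s.image φ) ⊆ s.biUnion fun i => (ex5 m i).vars := by
          intro j hj
          rw [Finset.mem_insert] at hj
          rcases hj with rfl | hj
          · rw [Finset.mem_biUnion]
            exact ⟨i, hi, (hmem i (fun h => h4 (h ▸ hi))).2.1 hi2⟩
          · exact himg hj
        calc s.card + 1 = (insert 0 (s.image φ)).card := by
              rw [Finset.card_insert_of_notMem hzero, hcardimg]
          _ ≤ _ := Finset.card_le_card hsub
      · push Not at hex
        have hs2 : s = {2} := by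
          apply Finset.eq_singleton_iff_unique_mem.mpr
          obtain ⟨i, hi⟩ := hs
          exact ⟨hex i hi ▸ hi, hex⟩
        rw [hs2]
        simp only [Finset.card_singleton, Finset.singleton_biUnion]
        have h2 := hmem 2 (n24 m)
        rw [φ2] at h2
        have : ({3, 4} : Finset (Fin (m + 5))) ⊆ (ex5 m 2).vars := by
          intro j hj
          simp only [Finset.mem_insert, Finset.mem_singleton] at hj
          rcases hj with rfl | rfl
          · exact h2.2.2 rfl
          · exact h2.1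
        calc 1 + 1 = ({3, 4} : Finset (Fin (m + 5))).card := (Finset.card_pair (n34 m)).symm
          _ ≤ _ := Finset.card_le_card this
  coeffs := by
    apply ex5_cases m
    · rw [ex5_0]; exact coeffs_add_X _ _ (n01 m)
    · rw [ex5_1]; exact coeffs_add_X _ _ (n02 m)
    · rw [ex5_2]; exact coeffs_add_X _ _ (n34 m)
    · rw [ex5_3]; exact coeffs_mul_X _ _
    · rw [ex5_4]
      intro d
      by_cases h : coeff d (last5 m) = 0
      · exact Or.inl h
      · exact Or.inr (Or.inl (support_last5 m d h).1)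
    · intro i a0 a1 a2 a3 a4
      rw [ex5_ge m i a0 a1 a2 a3 a4]
      exact coeffs_add_X _ _ (Ne.symm a0)

theorem sqf_add_X {n : ℕ} (i j : Fin n) (d : Fin n →₀ ℕ)
    (hd : d ∈ (X i + X j : MvPolynomial (Fin n) ℝ).support) (l : Fin n) : d l ≤ 1 := by
  classical
  rw [mem_support_iff, coeff_add, coeff_X, coeff_X] at hd
  by_cases h1 : Finsupp.single i 1 = d
  · rw [← h1, Finsupp.single_apply]
    split_ifs <;> omega
  · by_cases h2 : Finsupp.single j 1 = d
    · rw [← h2, Finsupp.single_apply]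
      split_ifs <;> omega
    · rw [if_neg h1, if_neg h2] at hd
      simp at hd

theorem tri_le {n : ℕ} (i j k : Fin n) (hij : i ≠ j) (hik : i ≠ k) (hjk : j ≠ k) (l : Fin n) :
    tri i j k l ≤ 1 := by
  classical
  simp only [tri, Finsupp.add_apply, Finsupp.single_apply]
  split_ifs with h1 h2 h3 h3 h2 h3 h3
  all_goals omega

theorem ex5_sqf (m : ℕ) : SqfreeMonomials (ex5 m) := by
  apply ex5_cases m
  · rw [ex5_0]; exact sqf_add_X _ _
  · rw [ex5_1]; exact sqf_add_X _ _
  · rw [ex5_2]; exact sqf_add_X _ _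
  · rw [ex5_3]
    intro d hd l
    have : (X 0 * X 3 : MvPolynomial (Fin (m + 5)) ℝ) =
        monomial (Finsupp.single 0 1 + Finsupp.single 3 1) 1 := by
      rw [X, X, monomial_mul, one_mul]
    rw [this, mem_support_iff, coeff_monomial] at hd
    by_cases h : (Finsupp.single 0 1 + Finsupp.single 3 1 : Fin (m + 5) →₀ ℕ) = d
    · rw [← h, Finsupp.add_apply, Finsupp.single_apply, Finsupp.single_apply]
      have := n03 m
      split_ifs with h1 h2
      · exact absurd (h1.trans h2.symm) this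
      all_goals omega
    · rw [if_neg h] at hd
      exact absurd rfl hd
  · rw [ex5_4]
    intro d hd l
    rw [mem_support_iff] at hd
    rcases (support_last5 m d hd).2 with rfl | rfl | ⟨j, _, rfl⟩
    · exact tri_le _ _ _ (n01 m) (n02 m) (n12 m) l
    · exact tri_le _ _ _ (n03 m) (n04 m) (n34 m) l
    · rw [Finsupp.single_apply]
      split_ifs <;> omega
  · intro i a0 a1 a2 a3 a4
    rw [ex5_ge m i a0 a1 a2 a3 a4]
    exact sqf_add_X _ _

theorem exists_sqf (n : ℕ) (hn : 5 ≤ n) : ∃ p : Fin n → MvPolynomial (Fin n) ℝ,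
    CharPolyType p ∧ SqfreeMonomials p ∧ Function.Surjective (polyMap p) := by
  obtain ⟨m, rfl⟩ : ∃ m, n = m + 5 := ⟨n - 5, by omega⟩
  exact ⟨ex5 m, ex5_type m, ex5_sqf m, ex5_surj m⟩

end Pool.Agent.Lib.MP_07d99b_al
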